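import Mathlib

namespace Pool.Agent.Results.MP_270153_nt.Full

open Finset

/-- `u ≡ v (mod p^m)` for rationals: `(u - v) / p^m` has denominator prime to `p` -/
def cong (p m : ℕ) (u v : ℚ) : Prop := ¬ p ∣ ((u - v) / (p : ℚ) ^ m).den

instance (p m : ℕ) (u v : ℚ) : Decidable (cong p m u v) := by unfold cong; infer_instance

/-- the rising factorial `(a)_k` -/
def poch (a : ℚ) (k : ℕ) : ℚ := ∏ i ∈ range k, (a + i)

/-- the truncated sum `S_m(N)` -/
def S (m N : ℕ) : ℚ :=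
  ∑ k ∈ range (N + 1), (4 * k - 1 : ℚ) ^ m * poch (-1 / 2) k ^ 4 / (k.factorial : ℚ) ^ 4

theorem cong_sub {p m : ℕ} (hp : p.Prime) {u v w : ℚ} (h1 : cong p m u w) (h2 : cong p m v w) :
    cong p m u v := by
  unfold cong at *
  have e : (u - v) / (p : ℚ) ^ m = (u - w) / (p : ℚ) ^ m - (v - w) / (p : ℚ) ^ m := by ring
  rw [e]
  intro h
  rcases (hp.dvd_mul).1 (h.trans (Rat.sub_den_dvd _ _)) with h | h
  · exact h1 h
  · exact h2 h

theorem cong_scale {p m : ℕ} (hp : p.Prime) {u w : ℚ} (h1 : cong p (m + 1) u (w * p)) :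
    cong p m (u / p) w := by
  unfold cong at *
  have hp0 : (p : ℚ) ≠ 0 := by exact_mod_cast hp.ne_zero
  have e : (u / p - w) / (p : ℚ) ^ m = (u - w * p) / (p : ℚ) ^ (m + 1) := by
    field_simp
    ring
  rwa [e]

theorem result : ¬ ∀ m : ℕ, Odd m → ∃ d : ℤ, ∀ p : ℕ, p.Prime → Odd p → ∀ r : ℕ, 0 < r →
    cong p (r + 3) (S m ((p ^ r + 1) / 2)) (d * p ^ r) := by
  intro h
  obtain ⟨d, hd⟩ := h 11 (by decide)
  have h1 := hd 3 (by norm_num) (by decide) 1 (by norm_num)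
  have h2 := hd 3 (by norm_num) (by decide) 2 (by norm_num)
  have e : (d : ℚ) * ((3 : ℕ) : ℚ) ^ 2 = d * ((3 : ℕ) : ℚ) ^ 1 * (3 : ℕ) := by ring
  rw [e] at h2
  have h3 := cong_sub (by norm_num) h1 (cong_scale (m := 4) (by norm_num) h2)
  revert h3
  decide +kernel

end Pool.Agent.Results.MP_270153_nt.Full
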